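import Pool.Agent.H78.SF.CN3b

/-!
# MP_70ba79_ag, THEOREM S, CN3: second reduction of the denominators
-/

set_option autoImplicit false

namespace Pool.Agent.H78.SF

open MvPolynomial SC Pool.Agent.H27.LV
open Pool.Agent.H84.SM (dp cr dt)
open Pool.Agent.H92.SF Pool.Agent.H3.SF

section Hm

variable {k L : Type} [Field k] [Field L] [Algebra k L] {E : Derivation k L L}

theorem Hm_mul {s t : ℤ} {a b : L} (ha : Hm k E s a) (hb : Hm k E t b) :
    Hm k E (s + t) (a * b) := by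
  unfold Hm at *
  rw [Derivation.leibniz, ha, hb, smul_eq_mul, smul_eq_mul]
  push_cast
  ring

theorem Hm_inv {s : ℤ} {a : L} (ha : Hm k E s a) : Hm k E (-s) a⁻¹ := by
  unfold Hm at *
  rw [Derivation.leibniz_inv, ha, smul_eq_mul]
  rcases eq_or_ne a 0 with h | h
  · rw [h]
    simp
  · push_cast
    field_simp

theorem Hm_pow {s : ℤ} {a : L} (ha : Hm k E s a) (n : ℕ) : Hm k E (n * s) (a ^ n) := by
  induction n with
  | zero =>
    unfold Hm
    rw [pow_zero, Derivation.map_one_eq_zero]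
    simp
  | succ n ih =>
    have h1 := Hm_mul ih ha
    rw [pow_succ]
    have h2 : ((n + 1 : ℕ) : ℤ) * s = n * s + s := by
      push_cast
      ring
    rw [h2]
    exact h1

theorem Hm_zero (t : ℤ) : Hm k E t 0 := by
  unfold Hm
  simp

end Hm

/-- forms are homogeneous -/
theorem hm_form {k F : Type} [Field k] [Field F] [Algebra k F] (u : Fin 3 → F)
    (dd : Fin 3 → Derivation k F F)
    (h : ∀ (l : Fin 3) (p : MvPolynomial (Fin 3) k), dd l (aeval u p) = aeval u (pderiv l p))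
    (n : ℕ) (p : MvPolynomial (Fin 3) k) (hp : p.IsHomogeneous n) :
    Hm k (eu u dd) n (aeval u p) := by
  have h1 := congrArg (aeval u) hp.sum_X_mul_pderiv
  rw [map_sum] at h1
  simp only [map_mul, aeval_X] at h1
  unfold Hm
  have h2 : eu u dd (aeval u p) = ∑ i, u i * aeval u (pderiv i p) := by
    unfold eu
    simp only [Fin.sum_univ_three, Derivation.add_apply, Derivation.smul_apply, smul_eq_mul, h]
  rw [h2, h1, map_nsmul, nsmul_eq_mul]
  push_cast
  rfl

/-- a linear combination which is a unit of a valuation ring contains a unit -/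
theorem exists_unit {k L : Type} [Field k] [Field L] [Algebra k L] (o : ValuationSubring L)
    (hk : ∀ c : k, algebraMap k L c ∈ o) (x : Fin 3 → L) (hx : ∀ j, x j ∈ o) (a : Fin 3 → k)
    (y : L) (hy : y = ∑ j, a j • x j) (hy0 : y ≠ 0) (hyi : y⁻¹ ∈ o) :
    ∃ j, x j ≠ 0 ∧ (x j)⁻¹ ∈ o := by
  by_contra hno
  push Not at hno
  have h1 : ∀ j, (⟨x j, hx j⟩ : o) ∈ IsLocalRing.maximalIdeal o := by
    intro j
    rw [IsLocalRing.mem_maximalIdeal]
    intro hu
    obtain ⟨z, hz⟩ := hu.exists_right_inv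
    have h2 : x j * (z : L) = 1 := congrArg Subtype.val hz
    have h3 : x j ≠ 0 := left_ne_zero_of_mul_eq_one h2
    apply hno j h3
    rw [inv_eq_of_mul_eq_one_right h2]
    exact z.2
  have hyo : y ∈ o := by
    rw [hy]
    refine sum_mem fun j _ => ?_
    rw [Algebra.smul_def]
    exact mul_mem (hk _) (hx j)
  have h2 : (⟨y, hyo⟩ : o) ∈ IsLocalRing.maximalIdeal o := by
    have h3 : (⟨y, hyo⟩ : o) = ∑ j, (⟨algebraMap k L (a j), hk _⟩ : o) * ⟨x j, hx j⟩ := by
      apply Subtype.ext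
      rw [AddSubmonoidClass.coe_finsetSum]
      change y = ∑ j, algebraMap k L (a j) * x j
      rw [hy]
      simp only [Algebra.smul_def]
    rw [h3]
    exact Ideal.sum_mem _ fun j _ => Ideal.mul_mem_left _ _ (h1 j)
  rw [IsLocalRing.mem_maximalIdeal] at h2
  apply h2
  refine IsUnit.of_mul_eq_one (⟨y⁻¹, hyi⟩ : o) (Subtype.ext ?_)
  exact mul_inv_cancel₀ hy0

theorem lf3_smul {L : Type} [Field L] (g : Fin 3 → L) (c : L) :
    lf3 (fun i => c * g i) = C c * lf3 g := by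
  unfold lf3
  rw [Finset.mul_sum]
  refine Finset.sum_congr rfl fun i _ => ?_
  rw [C_mul, mul_assoc]

theorem pf_CN3 (hCNS : T_CNS) (hSF1 : T_SF1) (hSF2 : T_SF2) (hCLS : T_CLS) (hVRI : T_VRI)
    (hNGD : T_NGD) (hGVM : T_GVM) : T_CN3 := by
  intro k F _ _ _ _ _ u dd δ j0 c0 J hS m G hm hG LL _ _ π v EL d hD b h H hb hH hH0 hlt hA hB
  obtain ⟨-, hu, hpu, hdp, -, hdd, -⟩ := hSF1 k F u dd δ j0 c0 J hS
  obtain ⟨-, hJd, hJdd, hdeg, -, -⟩ := hSF2 k F u dd δ j0 c0 J hS m G hG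
  have hCN := (hCNS k F u dd δ j0 c0 J hS m G (by omega) hG b hb).2
  have hcz : CharZero LL := charZero_of_injective_algebraMap (algebraMap k LL).injective
  -- the restriction of `G` and `J`
  have hπG : π ⟨G, hG.itg⟩ = 0 := by
    rw [hD.ker]
    have h1 : ((⟨G, hG.itg⟩ : Bb k u) : F) / G = 1 := div_self hG.ne
    rw [h1]
    exact (Bb k u).one_mem
  have hJ0 : aeval u J ≠ 0 := by
    intro h1
    exact hS.J0 ((injective_iff_map_eq_zero _).1 hS.ind J h1)
  have hπJ : π ⟨aeval u J, hpu J⟩ ≠ 0 := by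
    intro h1
    rw [hD.ker] at h1
    have h2 := hdeg j0 (aeval u J) hJ0 (hpu J) (hm_form u dd hdp j0 J hS.Jh) h1
    omega
  set gg : Fin 3 → LL := fun l => π ⟨aeval u J * dd l G, hJd l⟩ with hgg
  set g : Fin 3 → LL := fun l => gg l * (π ⟨aeval u J, hpu J⟩)⁻¹ with hg
  -- the certificate
  obtain ⟨c, hc⟩ := hG.cert
  have hcert : ∀ i, ∃ e : Fin 3 → LL, (∀ l, Itg k v (e l)) ∧
      π ⟨u i, hu i⟩ ^ c = ∑ l, e l * g l := by
    intro i
    obtain ⟨e, he, heq⟩ := hc i
    refine ⟨fun l => π ⟨e l, (he l).1⟩, fun l => hD.itg _, ?_⟩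
    have h1 : (⟨aeval u J, hpu J⟩ : Bb k u) * (⟨u i, hu i⟩ : Bb k u) ^ c =
        ∑ l, (⟨e l, (he l).1⟩ : Bb k u) * ⟨aeval u J * dd l G, hJd l⟩ := by
      apply Subtype.ext
      rw [AddSubmonoidClass.coe_finsetSum]
      change aeval u J * u i ^ c = ∑ l, e l * (aeval u J * dd l G)
      rw [heq, Finset.mul_sum]
      refine Finset.sum_congr rfl fun l _ => ?_
      ring
    have h2 := congrArg π h1
    rw [map_mul, map_pow, map_sum] at h2
    simp only [map_mul] at h2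
    apply mul_left_cancel₀ hπJ
    rw [h2, Finset.mul_sum]
    refine Finset.sum_congr rfl fun l _ => ?_
    rw [hg, hgg]
    simp only
    field_simp
  -- the cubic form on the curve
  have hb2 : C (aeval u J ^ 6 * aeval u H * G) * b ∈ IP (k := k) u := by
    rw [mem_IP]
    intro a
    rw [coeff_C_mul]
    exact hB a
  obtain ⟨b2, hb2⟩ := hb2
  have hb2c : ∀ a, ((b2.coeff a : Bb k u) : F) = aeval u J ^ 6 * aeval u H * G * b.coeff a := by
    intro a
    have h1 := congrArg (coeff a) hb2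
    rw [coeff_map, coeff_C_mul] at h1
    exact h1
  set bb : MvPolynomial (Fin 3) LL := map (π : Bb k u →+* LL) b2 with hbb
  have hbbc : ∀ a, bb.coeff a = π (b2.coeff a) := fun a => coeff_map _ _ _
  suffices hmain : bb = 0 by
    intro a
    have h1 : π (b2.coeff a) = 0 := by
      rw [← hbbc, hmain, coeff_zero]
    rw [hD.ker, hb2c] at h1
    have h2 : aeval u J ^ 6 * aeval u H * G * b.coeff a / G =
        aeval u J ^ 6 * aeval u H * b.coeff a := by
      rw [div_eq_iff hG.ne]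
      ring
    rwa [h2] at h1
  let gx' : Fin 3 → MvPolynomial (Fin 3) (Bb k u) :=
    cr (fun l => C (⟨aeval u J * dd l G, hJd l⟩ : Bb k u)) X
  have hgx1 : ∀ i, map (vl u) (gx' i) = C (aeval u J) * gx dd G i := by
    intro i
    change map (vl u) (cr (fun l => C (⟨aeval u J * dd l G, hJd l⟩ : Bb k u)) X i) = _
    unfold cr gx cr grd
    simp only [map_sub, map_mul, map_C, map_X]
    change C (aeval u J * dd (i + 1) G) * X (i + 2) - C (aeval u J * dd (i + 2) G) * X (i + 1) = _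
    rw [C_mul, C_mul]
    ring
  have hgx2 : ∀ i, map (π : Bb k u →+* LL) (gx' i) = gcx gg i := by
    intro i
    change map (π : Bb k u →+* LL)
      (cr (fun l => C (⟨aeval u J * dd l G, hJd l⟩ : Bb k u)) X i) = _
    unfold cr gcx cr
    simp only [map_sub, map_mul, map_C, map_X]
    rfl
  have hi : bind₁ (gcx gg) bb = 0 := by
    obtain ⟨M, hM, hM2⟩ := part_i u dd J H G b hb.hb hu (hpu J) (hpu H) hG.itg hG.ne hJd hJdd hA
    have h1 := map_zero_of π ⟨G, hG.itg⟩ hπG (bind₁ gx' b2) M hM (by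
      rw [map_bind₁, hb2]
      simp only [hgx1]
      exact hM2)
    rw [map_bind₁] at h1
    simp only [hgx2] at h1
    exact h1
  have hii : ∀ l, gg l ≠ 0 → bind₁ (gcx gg) (pderiv l bb) = 0 := by
    intro l hl
    have hl0 : dd l G ≠ 0 := by
      intro h1
      apply hl
      have h2 : (⟨aeval u J * dd l G, hJd l⟩ : Bb k u) = 0 := by
        apply Subtype.ext
        change aeval u J * dd l G = 0
        rw [h1, mul_zero]
      rw [hgg]
      simp only
      rw [h2, map_zero]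
    obtain ⟨M, hM, hM2⟩ := part_ii u dd J H m G b hb.hb hu (hpu J) (hpu H) hG.ne hJd hJdd hA hCN
      l hl0
    have h1 := map_zero_of π ⟨G, hG.itg⟩ hπG (C (m : Bb k u) * bind₁ gx' (pderiv l b2)) M hM (by
      rw [map_mul, map_C, map_natCast, map_bind₁, ← pderiv_map, hb2]
      simp only [hgx1]
      exact hM2)
    rw [map_mul, map_C, map_bind₁, ← pderiv_map, map_natCast] at h1
    simp only [hgx2] at h1
    rcases mul_eq_zero.1 h1 with h2 | h2
    · rw [C_eq_zero] at h2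
      have h3 : (m : LL) ≠ 0 := Nat.cast_ne_zero.2 (by omega)
      exact absurd h2 h3
    · exact h2
  -- values of `u` on the curve
  have hvu : ∀ i, ∃ a : Fin 3 → k, v i = ∑ j, a j • π ⟨u j, hu j⟩ := by
    intro i
    obtain ⟨a, b', hb', hv⟩ := hD.lin i
    refine ⟨a, ?_⟩
    have h1 : b' = ∑ j, a j • (⟨u j, hu j⟩ : Bb k u) := by
      apply Subtype.ext
      rw [AddSubmonoidClass.coe_finsetSum, hb']
      rfl
    rw [hv, h1, map_sum]
    refine Finset.sum_congr rfl fun j _ => ?_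
    rw [map_smul]
  -- some derivative of `G` is not zero on the curve
  obtain ⟨l, hl⟩ : ∃ l, gg l ≠ 0 := by
    by_contra hno
    push Not at hno
    have hg0 : ∀ l, g l = 0 := by
      intro l
      rw [hg]
      simp only
      rw [hno, zero_mul]
    have hu0 : ∀ i, π ⟨u i, hu i⟩ = 0 := by
      intro i
      obtain ⟨e, -, he⟩ := hcert i
      simp only [hg0, mul_zero, Finset.sum_const_zero] at he
      have hc0 : c ≠ 0 := by
        intro h1
        rw [h1, pow_zero] at he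
        exact one_ne_zero he
      exact (pow_eq_zero_iff hc0).1 he
    obtain ⟨a, ha⟩ := hvu 0
    simp only [hu0, smul_zero, Finset.sum_const_zero] at ha
    exact hD.hd.ind.ne_zero 0 ha
  obtain ⟨M, hM⟩ := sq_dvd gg l hl bb hi (hii l hl)
  set Λ : MvPolynomial (Fin 3) LL := C (π ⟨aeval u J, hpu J⟩ ^ 2) * M with hΛ
  have hgg2 : gg = fun i => π ⟨aeval u J, hpu J⟩ * g i := by
    funext i
    rw [hg]
    simp only
    field_simp
  have hbΛ : lf3 g ^ 2 * Λ = bb := by
    rw [hM, hΛ]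
    conv_rhs => rw [hgg2]
    rw [lf3_smul, C_pow]
    ring
  have hgl : ∃ l, g l ≠ 0 := ⟨l, mul_ne_zero hl (inv_ne_zero hπJ)⟩
  -- homogeneity
  have hmπ : ∀ (t : ℤ) (z : Bb k u), Hm k (eu u dd) t (z : F) → Hm k EL t (π z) := by
    intro t z hz
    have h1 := hD.eul z ((t : Bb k u) * z) (by
      rw [hz]
      push_cast
      rfl)
    unfold Hm
    rw [h1, map_mul, map_intCast]
  have hJh := hm_form u dd hdp j0 J hS.Jh
  have hHh := hm_form u dd hdp h H hH
  have hbbh : ∀ a, Hm k EL (6 * j0 + h + m) (bb.coeff a) := by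
    intro a
    rw [hbbc]
    apply hmπ
    rw [hb2c]
    have h1 := Hm_mul (Hm_mul (Hm_mul (Hm_pow hJh 6) hHh) hG.hom) (hb.hm a)
    rw [add_zero] at h1
    exact_mod_cast h1
  have hgh : ∀ i, Hm k EL ((m : ℤ) - 1) (g i) := by
    intro i
    have h1 : Hm k EL (j0 + ((m : ℤ) - 1)) (gg i) :=
      hmπ _ ⟨aeval u J * dd i G, hJd i⟩ (Hm_mul hJh (hdd m G i hG.hom))
    have h2 := Hm_mul h1 (Hm_inv (hmπ j0 ⟨aeval u J, hpu J⟩ hJh))
    have h3 : (j0 : ℤ) + ((m : ℤ) - 1) + -(j0 : ℤ) = (m : ℤ) - 1 := by ring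
    rw [h3] at h2
    exact h2
  have hΛh : ∀ a, Hm k EL ((6 * j0 + h + m : ℤ) - (2 : ℕ) * ((m : ℤ) - 1)) (Λ.coeff a) := by
    intro a
    obtain ⟨l', hl'⟩ := hgl
    exact hm_quot EL _ _ 2 (lf3 g) Λ bb (lf3_ne g l' hl')
      (fun a => lf3_coeff g a (fun z => Hm k EL ((m : ℤ) - 1) z) (Hm_zero _) hgh) hbbh hbΛ a
  -- integrality
  have hΛi : ∀ a, Itg k v (Λ.coeff a) := by
    intro a
    rw [hVRI k LL 2 v le_rfl hD.hd.ind]
    intro o ho
    have hin : ∀ z, Itg k v z → z ∈ o := fun z hz =>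
      (hVRI k LL 2 v le_rfl hD.hd.ind z).1 hz o ho
    obtain ⟨i, hi0, hi1⟩ := ho.unit
    obtain ⟨a', ha'⟩ := hvu i
    obtain ⟨j, hj0, hj1⟩ := exists_unit o ho.con (fun j => π ⟨u j, hu j⟩)
      (fun j => hin _ (hD.itg _)) a' (v i) ha' hi0 hi1
    obtain ⟨e, he, heq⟩ := hcert j
    obtain ⟨l', hl0, hl1, -⟩ := hCLS LL o c (π ⟨u j, hu j⟩) e g hj0 hj1 (fun l => hin _ (he l)) heq
    have h1 := hGVM LL o 3 2 (lf3 g) Λ (fun a => by
      rw [hbΛ, hbbc]
      exact hin _ (hD.itg _)) (fun _ => g l') (fun _ => ⟨Finsupp.single l' 1,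
        (lf3_coeff_single g l').symm⟩) a
    rw [Fin.prod_univ_two] at h1
    have h2 : Λ.coeff a = (g l')⁻¹ * ((g l')⁻¹ * (g l' * g l' * Λ.coeff a)) := by
      field_simp
    rw [h2]
    exact mul_mem hl1 (mul_mem hl1 h1)
  have hΛ0 : Λ = 0 := by
    ext a
    rw [coeff_zero]
    refine (hNGD k LL 2 d v EL hD.hd).1 _ _ ?_ (hΛi a) (hΛh a)
    push_cast
    omega
  rw [← hbΛ, hΛ0, mul_zero]

end Pool.Agent.H78.SF
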