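import Pool.Agent.H3.SF.Tg2
import Pool.Agent.H10.SM.PRM
import Pool.Agent.H16.SM.EXT

/-!
# MP_70ba79_ag, THEOREM S, PRS: restriction to the field generated by the values
-/

set_option autoImplicit false

namespace Pool.Agent.H78.SF

open MvPolynomial SC Pool.Agent.H27.LV
open Pool.Agent.H84.SM (dp cr dt)
open Pool.Agent.H92.SF Pool.Agent.H3.SF
open Pool.Agent.H10.SM (der_adjoin der_alg alg_adjoin der_ne pole_ext place_inj mem_range_of_alg)

/-- intermediate fields of a finitely generated extension of transcendence degree one are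
finitely generated -/
theorem ess_inter {k K : Type} [Field k] [Field K] [Algebra k K] [Algebra.EssFiniteType k K]
    (htr : Algebra.trdeg k K = 1) (F : IntermediateField k K) (t : K) (htF : t ∈ F)
    (ht : Transcendental k t) : Algebra.EssFiniteType k F := by
  rw [IntermediateField.essFiniteType_iff]
  let E : IntermediateField k K := IntermediateField.adjoin k {t}
  have htE : t ∈ E := IntermediateField.mem_adjoin_simple_self k t
  have hEF : E ≤ F := IntermediateField.adjoin_le_iff.2 (Set.singleton_subset_iff.2 htF)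
  have hal : Algebra.IsAlgebraic E K := alg_adjoin htr t ht
  have hess : Algebra.EssFiniteType E K := Algebra.EssFiniteType.of_comp k E K
  have hfd : Module.Finite E K := Algebra.finite_of_essFiniteType_of_isAlgebraic
  have hfg : (IntermediateField.extendScalars hEF).FG :=
    IntermediateField.fg_of_noetherian _
  obtain ⟨s, hs, hsF⟩ := IntermediateField.fg_def.1 hfg
  refine IntermediateField.fg_def.2 ⟨{t} ∪ s, (Set.finite_singleton t).union hs, ?_⟩
  have h1 := IntermediateField.adjoin_adjoin_left k ({t} : Set K) s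
  rw [← h1]
  have h2 : IntermediateField.adjoin (IntermediateField.adjoin k {t}) s =
      IntermediateField.extendScalars hEF := hsF
  rw [h2]
  rfl

/-- the derivation of the field generated by a set -/
theorem exists_D0' {k K : Type} [Field k] [CharZero k] [Field K] [Algebra k K]
    (htr : Algebra.trdeg k K = 1) (D : Derivation k K K) (t : K) (s : Set K) (hts : t ∈ s)
    (hxt : Transcendental k t) (hμ : D t ≠ 0) (F : IntermediateField k K)
    (hF : F = IntermediateField.adjoin k s) :
    ∃ D0 : Derivation k F F, ∀ z : F, D (z : K) = D t * (D0 z : K) := by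
  have hsF : s ⊆ F := by
    rw [hF]
    exact IntermediateField.subset_adjoin _ _
  let D1 : Derivation k K K := (D t)⁻¹ • D
  have hD1 : ∀ z, D1 z = (D t)⁻¹ * D z := fun z => rfl
  have hal := alg_adjoin htr t hxt
  let E := IntermediateField.adjoin k {t}
  have hE1 : ∀ y ∈ E, y ∈ F ∧ D1 y ∈ F := by
    apply der_adjoin D1 {t} F
    · intro y hy
      rw [Set.mem_singleton_iff.1 hy]
      exact hsF hts
    · intro y hy
      rw [Set.mem_singleton_iff.1 hy, hD1, inv_mul_cancel₀ hμ]
      exact F.one_mem
  have hstab : ∀ y ∈ F, D1 y ∈ F := by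
    intro y hy
    have h1 := der_adjoin D1 s F hsF
      (by
        intro z hz
        exact der_alg D1 E F (fun y hy => (hE1 y hy).1) (fun y hy => (hE1 y hy).2) z (hsF hz)
          (hal.isAlgebraic z).isIntegral)
    exact (h1 y (hF ▸ hy)).2
  let D0 : Derivation k F F := Derivation.mk'
    { toFun := fun z => ⟨D1 (z : K), hstab _ z.2⟩
      map_add' := fun y z => Subtype.ext (D1.map_add y z)
      map_smul' := fun c z => Subtype.ext (D1.map_smul c z) }
    (fun y z => Subtype.ext (D1.leibniz y z))
  refine ⟨D0, fun z => ?_⟩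
  have h1 : ((D0 z : F) : K) = (D t)⁻¹ * D (z : K) := rfl
  rw [h1, mul_inv_cancel_left₀ hμ]

theorem pf_PRS (hSF1 : T_SF1) (_hSF2 : T_SF2) (_hVLA : T_VLA) : T_PRS := by
  intro k F₀ _ _ _ _ _ u dd δ j0 c0 J hS m G hG K _ _ _ htr D hD φ x g S hx
  classical
  by_cases hc : ∀ i, x i ∈ Set.range (algebraMap k K)
  · exact Or.inl hc
  right
  push Not at hc
  obtain ⟨i0, hi0⟩ := hc
  have hitu : ∀ i, Itg k u (u i) := (hSF1 k F₀ u dd δ j0 c0 J hS).2.1
  have hxt : Transcendental k (x i0) := fun ha => hi0 (mem_range_of_alg ha)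
  have hμ : D (x i0) ≠ 0 := der_ne htr (x i0) hxt D hD
  have hxφ : ∀ i, φ ⟨u i, hitu i⟩ = x i := fun i => hx.cx i ⟨u i, hitu i⟩ rfl
  have hxs : ∀ i, x i ∈ Set.range φ := fun i => ⟨_, hxφ i⟩
  let F : IntermediateField k K := IntermediateField.adjoin k (Set.range φ)
  have hφF : ∀ b, φ b ∈ F := fun b => IntermediateField.subset_adjoin _ _ ⟨b, rfl⟩
  have hxF : ∀ i, x i ∈ F := fun i => IntermediateField.subset_adjoin _ _ (hxs i)
  have hgφ : φ ⟨G, hG.itg⟩ = g := hx.gx ⟨G, hG.itg⟩ rfl
  have hgF : g ∈ F := by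
    rw [← hgφ]
    exact hφF _
  obtain ⟨D0, hD0⟩ := exists_D0' htr D (x i0) (Set.range φ) (hxs i0) hxt hμ F rfl
  have hess : Algebra.EssFiniteType k F := ess_inter htr F (x i0) (hxF i0) hxt
  let x0 : Fin 3 → F := fun i => ⟨x i, hxF i⟩
  let g0 : F := ⟨g, hgF⟩
  let φ0 : Bb k u →ₐ[k] F :=
    { toFun := fun b => ⟨φ b, hφF b⟩
      map_one' := Subtype.ext (map_one φ)
      map_mul' := fun a b => Subtype.ext (map_mul φ a b)
      map_zero' := Subtype.ext (map_zero φ)
      map_add' := fun a b => Subtype.ext (map_add φ a b)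
      commutes' := fun c => Subtype.ext (φ.commutes c) }
  have hφ0 : ∀ b, F.val (φ0 b) = φ b := fun b => rfl
  have hιx : ∀ i, F.val (x0 i) = x i := fun i => rfl
  have htrF : Algebra.trdeg k F = 1 := by
    apply le_antisymm
    · rw [← htr]
      exact trdeg_le_of_injective F.val F.val.injective
    · rw [Cardinal.one_le_iff_ne_zero, trdeg_ne_zero_iff]
      refine ⟨⟨⟨x i0, hxF i0⟩, ?_⟩⟩
      intro halg
      exact hxt (halg.algebraMap (A := K))
  have hval : ∀ P : MvPolynomial (Fin 3) k, F.val (aeval x0 P) = aeval x P := by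
    intro P
    rw [← AlgHom.comp_apply, MvPolynomial.comp_aeval]
    rfl
  -- places
  have hE := Pool.Agent.H16.SM.pf_EXT k F K F.val htrF htr
  choose v e he hve using hE
  have hpole : ∀ w, poleOrder (v w) x = e w * poleOrder w x0 := fun w =>
    pole_ext F.val w (v w) (e w) (hve w) x0 x hιx
  let T : Set (DV k F) := {w | w.ord g0 ≠ -(m * poleOrder w x0)}
  have hmem : ∀ w ∈ T, v w ∈ S := by
    intro w hw
    by_contra hvS
    apply hw
    have h1 := hx.off (v w) hvS
    have h0 : F.val g0 = g := rfl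
    rw [← h0, hve, hpole] at h1
    have h2 : (e w : ℤ) ≠ 0 := by
      have := he w
      omega
    apply mul_left_cancel₀ h2
    rw [h1]
    push_cast
    ring
  have hinj : Function.Injective v := by
    intro w w' hww
    refine place_inj F.val w w' (v w) (e w) (e w') (he w) (he w') (hve w) ?_
    rw [hww]
    exact hve w'
  have hTfin : T.Finite := Set.Finite.of_injOn (f := v) (t := (S : Set (DV k K)))
    (fun w hw => hmem w hw) hinj.injOn S.finite_toSet
  refine ⟨F, inferInstance, inferInstance, hess, F.val, φ0, x0, g0, D0, D (x i0), hTfin.toFinset,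
    htrF, ?_, hιx, hφ0, ?_, hμ, hD0, ⟨?_, ?_, ?_, ?_, ?_, ?_⟩, ?_⟩
  · intro h0
    have h1 := hD0 (x0 i0)
    rw [h0] at h1
    apply hμ
    have h2 : ((0 : Derivation k F F) (x0 i0) : K) = 0 := rfl
    rw [h2, mul_zero] at h1
    exact h1
  · unfold Prm
    apply IntermediateField.lift_injective F
    rw [IntermediateField.lift_adjoin, IntermediateField.lift_top, ← Set.range_comp]
    rfl
  · intro i b hb
    exact Subtype.ext (hx.cx i b hb)
  · obtain ⟨j, hj⟩ := hx.one
    exact ⟨j, Subtype.ext hj⟩
  · intro h0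
    apply hx.Jx
    rw [← hval, h0, map_zero]
  · intro b hb
    exact Subtype.ext (hx.gx b hb)
  · intro h0
    apply hx.ne
    exact congrArg Subtype.val h0
  · intro w hw
    by_contra h1
    exact hw (hTfin.mem_toFinset.2 h1)
  · refine Finset.card_le_card_of_injOn v ?_ hinj.injOn
    intro w hw
    exact hmem w (hTfin.mem_toFinset.1 hw)

end Pool.Agent.H78.SF
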