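import Pool.Agent.H9.SF.WDefs

/-! # MP_3b3fc8_lc, module WZ: the final model -/

open Ordinal Cardinal Order Set
open scoped ZFSet

namespace SF.H78

open SF

/-- the class of all sets is a model of `ZFm` -/
theorem zfm_al : ZFm Al where
  trans _ _ _ _ := trivial
  pair _ _ _ _ := trivial
  union _ _ := trivial
  inf := trivial
  sep _ _ _ _ _ := trivial
  coll φ v a _ _ h := by
    classical
    have h1 : ∀ x : El a, ∃ y, Sat Al φ (cons y (cons x.val v)) := fun x => by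
      obtain ⟨y, -, hy⟩ := h x.val x.mem
      exact ⟨y, hy⟩
    choose F hF using h1
    refine ⟨ZFSet.range F, trivial, fun x hx => ⟨F ⟨x, hx⟩, ?_, hF ⟨x, hx⟩⟩⟩
    exact ZFSet.mem_range.2 ⟨⟨x, hx⟩, rfl⟩

/-- the family of relations -/
def fam {ι : Type} (a b : V) (R : ι → (ℕ → V) → Prop) : Option (Option ι) → (ℕ → V) → Prop
  | none => fun v => v 0 = a
  | some none => fun v => v 0 = b
  | some (some n) => R n

theorem fam_fin {ι : Type} {a b : V} {R : ι → (ℕ → V) → Prop} (hR : ∀ n, FinSup (R n)) :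
    ∀ n, FinSup (fam a b R n) := by
  intro n
  cases n with
  | none => exact ⟨1, fun v w h => by show v 0 = a ↔ w 0 = a; rw [h 0 Nat.zero_lt_one]⟩
  | some n =>
    cases n with
    | none => exact ⟨1, fun v w h => by show v 0 = b ↔ w 0 = b; rw [h 0 Nat.zero_lt_one]⟩
    | some n => exact hR n

/-- WZ. The final model. -/
theorem wz (hWD : T_WD) (hWE : T_WE) (hWG : T_WG) (hWF : T_WF) (hWA : T_WA) (hFM : T_FM)
    (hFK : T_FK) (hW2 : T_W2) (hW3 : T_W3) : T_WZ := by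
  rintro ⟨A, hgood, hfax, hne⟩
  obtain ⟨a, ha⟩ := hW2 A hgood hfax hne
  obtain ⟨ι, hι, R, hR, hR2⟩ := hW3 A hgood hfax hne
  obtain ⟨M, j, hM, hS⟩ := hWD (Option (Option ι)) (fam a A.B R) (fam_fin hR)
  have hZ : ZFC (· ∈ M) := (hWE M j hM).1
  have hm : ZFm (· ∈ M) := hZ.toZFCm.toZFm
  have hv0 : ∀ i : ℕ, (fun _ : ℕ => (∅ : V)) i ∈ M := fun _ => hm.mempty
  obtain ⟨x, hx, hjx⟩ := hS none (fun _ => ∅) hv0 ⟨a, rfl⟩
  obtain ⟨B, hB, hjB⟩ := hS (some none) (fun _ => ∅) hv0 ⟨A.B, rfl⟩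
  have hjx' : j x = a := hjx
  have hjB' : j B = A.B := hjB
  have hWA' := hWA ZFm (· ∈ M) Al j hM.elem hm zfm_al
  have hInB : In (· ∈ M) (fun _ => B) := fun _ => hB
  have hC : CBAr (· ∈ M) B := by
    have h1 := hWA'.1 _ hWF.2.1 (fun _ => B) hInB
    have h2 : CBAr (· ∈ M) B ↔ CBAr Al (j B) := h1
    rw [h2, hjB']
    exact (hWG.1 A.B).1 A.cba
  have hBne : B ≠ {∅} := by
    intro hB1
    have h1 := hWA'.2 (fun _ _ => ({∅} : V)) (Tm.sing Tm.empty) (fun _ => B) hInB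
    have h2 : j ({∅} : V) = {∅} := h1
    apply hne
    rw [← hjB', hB1, h2]
  have hPo : IsPo (pos B) (incl B) := hWG.2.2.1 (· ∈ M) B hC hBne
  have hpB : pos B ∈ M := hWF.2.2.1.1 (· ∈ M) hm (fun _ => B) hInB
  have hiB : incl B ∈ M := hWF.2.2.2.1.1 (· ∈ M) hm (fun _ => B) hInB
  obtain ⟨p, hp⟩ := hPo.ne
  have hct : {x | x ∈ M}.Countable := hM.ctb
  obtain ⟨G, hG, -⟩ := hFM (· ∈ M) (pos B) (incl B) p hct hPo hp
  refine ⟨extS M G, ?_, ?_, ?_, ?_⟩
  · refine (hct.image (fun x => val G x)).mono ?_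
    intro y hy
    obtain ⟨x, hx, h⟩ := mem_extS.1 (show y ∈ extS M G from hy)
    exact ⟨x, hx, h.symm⟩
  · have h1 := hFK (· ∈ M) (pos B) (incl B) G hZ hpB hiB hPo hG
    rw [ext_eq_extS] at h1
    exact h1
  · exact hR2 M j hM (fun n => hS (some (some n))) B hB hjB' G hG
  · exact ha M j hM ⟨x, hx, hjx'⟩ B hB hjB' G hG

end SF.H78
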