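import Pool.Agent.H9.SF.WD2
import Pool.Agent.H68.SF.LT
import Pool.Agent.H78.SF.WZ

/-! # MP_3b3fc8_lc, module WZ2: the final model, both readings of subcompleteness -/

open Ordinal Cardinal Order Set
open scoped ZFSet

namespace SF.H78

open SF

/-- the forcing axiom for the weakest reading implies the forcing axiom -/
theorem scfa_of_scfac (hLEZ : T_LEZ) {W : V → Prop} (h : SCFAc W) : SCFA W := by
  intro c r hc hr hpo hsc
  exact h c r hc hr hpo (hsc.core fun N' N f hel htr hne hz => (hLEZ N' N f hne htr hel).2 hz)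

/-- WZ2. The final model. -/
theorem wz2 (hWD : T_WD) (hWE : T_WE) (hWG : T_WG) (hWF : T_WF) (hWA : T_WA) (hFM : T_FM)
    (hFK : T_FK) (hW2 : T_W2) (hLEZ : T_LEZ) : T_WZ2 := by
  rintro hW3 ⟨A, hgood, hfax, hne⟩
  obtain ⟨a, ha⟩ := hW2 A hgood hfax hne
  obtain ⟨ι, hι, R, hR, hR2⟩ := hW3 A hgood hfax hne
  obtain ⟨M, j, hM, hS⟩ := hWD (Option (Option ι)) (fam a A.B R) (fam_fin hR)
  have hZ : ZFC (· ∈ M) := (hWE M j hM).1
  have hm : ZFm (· ∈ M) := hZ.toZFCm.toZFm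
  have hv0 : ∀ i : ℕ, (fun _ : ℕ => (∅ : V)) i ∈ M := fun _ => hm.mempty
  obtain ⟨x, hx, hjx⟩ := hS none (fun _ => ∅) hv0 ⟨a, rfl⟩
  obtain ⟨B, hB, hjB⟩ := hS (some none) (fun _ => ∅) hv0 ⟨A.B, rfl⟩
  have hjx' : j x = a := hjx
  have hjB' : j B = A.B := hjB
  have hWA' := hWA ZFm (· ∈ M) Al j hM.elem hm zfm_al
  have hInB : In (· ∈ M) (fun _ => B) := fun _ => hB
  have hC : CBAr (· ∈ M) B := by
    have h1 := hWA'.1 _ hWF.2.1 (fun _ => B) hInB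
    have h2 : CBAr (· ∈ M) B ↔ CBAr Al (j B) := h1
    rw [h2, hjB']
    exact (hWG.1 A.B).1 A.cba
  have hBne : B ≠ {∅} := by
    intro hB1
    have h1 := hWA'.2 (fun _ _ => ({∅} : V)) (Tm.sing Tm.empty) (fun _ => B) hInB
    have h2 : j ({∅} : V) = {∅} := h1
    apply hne
    rw [← hjB', hB1, h2]
  have hPo : IsPo (pos B) (incl B) := hWG.2.2.1 (· ∈ M) B hC hBne
  have hpB : pos B ∈ M := hWF.2.2.1.1 (· ∈ M) hm (fun _ => B) hInB
  have hiB : incl B ∈ M := hWF.2.2.2.1.1 (· ∈ M) hm (fun _ => B) hInB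
  obtain ⟨p, hp⟩ := hPo.ne
  have hct : {x | x ∈ M}.Countable := hM.ctb
  obtain ⟨G, hG, -⟩ := hFM (· ∈ M) (pos B) (incl B) p hct hPo hp
  have hc : SCFAc (· ∈ extS M G) :=
    (scfac_iff _).1 (hR2 M j hM (fun n => hS (some (some n))) B hB hjB' G hG)
  refine ⟨extS M G, ?_, ?_, scfa_of_scfac hLEZ hc, hc, ?_⟩
  · refine (hct.image (fun x => val G x)).mono ?_
    intro y hy
    obtain ⟨x, hx, h⟩ := mem_extS.1 (show y ∈ extS M G from hy)
    exact ⟨x, hx, h.symm⟩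
  · have h1 := hFK (· ∈ M) (pos B) (incl B) G hZ hpB hiB hPo hG
    rw [ext_eq_extS] at h1
    exact h1
  · exact ha M j hM ⟨x, hx, hjx'⟩ B hB hjB' G hG

end SF.H78
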