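import Pool.Agent.H3.SF.Tg2

/-!
# MP_70ba79_ag, THEOREM S, CN3: division by a linear form, homogeneous quotients
-/

set_option autoImplicit false

namespace Pool.Agent.H78.SF

open MvPolynomial SC Pool.Agent.H27.LV
open Pool.Agent.H84.SM (dp cr dt)
open Pool.Agent.H92.SF Pool.Agent.H3.SF

/-! ### Division by a linear form -/

section Div

variable {L : Type} [Field L]

/-- the linear form with the coefficients `g` -/
noncomputable def lf3 (g : Fin 3 → L) : MvPolynomial (Fin 3) L := ∑ i, C (g i) * X i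

theorem lf3_coeff_single (g : Fin 3 → L) (l : Fin 3) :
    (lf3 g).coeff (Finsupp.single l 1) = g l := by
  unfold lf3
  rw [coeff_sum]
  rw [Finset.sum_eq_single l]
  · rw [coeff_C_mul, coeff_X, if_pos rfl, mul_one]
  · intro i _ hi
    rw [coeff_C_mul, coeff_X, if_neg, mul_zero]
    intro h
    exact hi (Finsupp.single_left_injective one_ne_zero h)
  · intro h
    exact absurd (Finset.mem_univ l) h

theorem lf3_ne (g : Fin 3 → L) (l : Fin 3) (hl : g l ≠ 0) : lf3 g ≠ 0 := by
  intro h
  apply hl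
  rw [← lf3_coeff_single g l, h, coeff_zero]

/-- coefficients of the linear form -/
theorem lf3_coeff (g : Fin 3 → L) (a : Fin 3 →₀ ℕ) (p : L → Prop) (h0 : p 0) (h : ∀ i, p (g i))
    : p ((lf3 g).coeff a) := by
  by_cases ha : ∃ l, a = Finsupp.single l 1
  · obtain ⟨l, rfl⟩ := ha
    rw [lf3_coeff_single]
    exact h l
  · have h1 : (lf3 g).coeff a = 0 := by
      unfold lf3
      rw [coeff_sum]
      refine Finset.sum_eq_zero fun i _ => ?_
      rw [coeff_C_mul, coeff_X, if_neg, mul_zero]
      exact fun h => ha ⟨i, h.symm⟩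
    rw [h1]
    exact h0

/-- `g × X` -/
noncomputable def gcx (g : Fin 3 → L) : Fin 3 → MvPolynomial (Fin 3) L :=
  cr (fun i => C (g i)) X

theorem bind_lf3 (g : Fin 3 → L) : bind₁ (gcx g) (lf3 g) = 0 := by
  unfold lf3 gcx cr
  simp only [Fin.sum_univ_three, map_add, map_mul, bind₁_X_right, algHom_C]
  simp only [Fin.isValue, zero_add, show (1 : Fin 3) + 1 = 2 from rfl,
    show (1 : Fin 3) + 2 = 0 from rfl, show (2 : Fin 3) + 1 = 0 from rfl,
    show (2 : Fin 3) + 2 = 1 from rfl]
  simp only [algebraMap_eq]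
  ring

/-- the projection along a coordinate to the plane -/
noncomputable def yp (g : Fin 3 → L) (l : Fin 3) : Fin 3 → MvPolynomial (Fin 3) L :=
  fun i => X i - if i = l then C (g l)⁻¹ * lf3 g else 0

/-- the vector whose vector product with `g` is the projection -/
noncomputable def rp (g : Fin 3 → L) (l : Fin 3) : Fin 3 → MvPolynomial (Fin 3) L :=
  fun i => if i = l + 1 then C (g l)⁻¹ * X (l + 2)
    else if i = l + 2 then - (C (g l)⁻¹ * X (l + 1)) else 0

theorem cr_rp (g : Fin 3 → L) (l : Fin 3) (hl : g l ≠ 0) (i : Fin 3) :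
    bind₁ (rp g l) (gcx g i) = yp g l i := by
  have h1 : (C (g l)⁻¹ : MvPolynomial (Fin 3) L) * C (g l) = 1 := by
    rw [← C_mul, inv_mul_cancel₀ hl, C_1]
  have h2 : bind₁ (rp g l) (gcx g i) =
      C (g (i + 1)) * rp g l (i + 2) - C (g (i + 2)) * rp g l (i + 1) := by
    unfold gcx cr
    simp only [map_sub, map_mul, bind₁_X_right, algHom_C, algebraMap_eq]
  rw [h2]
  unfold yp rp lf3
  fin_cases l <;> fin_cases i <;>
    simp [Fin.sum_univ_three, show (1 : Fin 3) + 1 = 2 from rfl,
    show (1 : Fin 3) + 2 = 0 from rfl, show (2 : Fin 3) + 1 = 0 from rfl,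
    show (2 : Fin 3) + 2 = 1 from rfl] at h1 ⊢ <;>
    first
    | linear_combination (X 0) * h1
    | linear_combination (X 1) * h1
    | linear_combination (X 2) * h1

theorem dvd_of_bind (g : Fin 3 → L) (l : Fin 3) (hl : g l ≠ 0) (N : MvPolynomial (Fin 3) L)
    (h : bind₁ (gcx g) N = 0) : lf3 g ∣ N := by
  have h1 : bind₁ (yp g l) N = 0 := by
    have h2 : bind₁ (rp g l) (bind₁ (gcx g) N) = bind₁ (yp g l) N := by
      rw [bind₁_bind₁]
      congr 2
      funext i
      exact cr_rp g l hl i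
    rw [← h2, h, map_zero]
  have h3 : (Ideal.Quotient.mkₐ L (Ideal.span {lf3 g})).comp (bind₁ (yp g l)) =
      Ideal.Quotient.mkₐ L (Ideal.span {lf3 g}) := by
    apply algHom_ext
    intro i
    rw [AlgHom.comp_apply, bind₁_X_right]
    unfold yp
    split_ifs with hi
    · rw [map_sub, map_mul]
      have h4 : Ideal.Quotient.mkₐ L (Ideal.span {lf3 g}) (lf3 g) = 0 := by
        rw [Ideal.Quotient.mkₐ_eq_mk, Ideal.Quotient.eq_zero_iff_mem]
        exact Ideal.mem_span_singleton_self _
      rw [h4, mul_zero, sub_zero]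
    · rw [sub_zero]
  have h5 := congrArg (fun f => f N) h3
  simp only [AlgHom.comp_apply] at h5
  rw [h1, map_zero] at h5
  rw [← Ideal.mem_span_singleton, ← Ideal.Quotient.eq_zero_iff_mem, ← Ideal.Quotient.mkₐ_eq_mk L]
  exact h5.symm

/-- double division -/
theorem sq_dvd (g : Fin 3 → L) (l : Fin 3) (hl : g l ≠ 0) (N : MvPolynomial (Fin 3) L)
    (h : bind₁ (gcx g) N = 0) (h' : bind₁ (gcx g) (pderiv l N) = 0) :
    ∃ M, N = lf3 g ^ 2 * M := by
  obtain ⟨Q, hQ⟩ := dvd_of_bind g l hl N h
  have h1 : pderiv l (lf3 g) = C (g l) := by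
    unfold lf3
    rw [map_sum]
    rw [Finset.sum_eq_single l]
    · rw [pderiv_C_mul, pderiv_X_self, mul_one]
    · intro i _ hi
      rw [pderiv_C_mul, pderiv_X_of_ne hi, mul_zero]
    · intro h
      exact absurd (Finset.mem_univ l) h
  rw [hQ, Derivation.leibniz, h1, map_add, smul_eq_mul, smul_eq_mul, map_mul, bind_lf3, zero_mul,
    zero_add, map_mul, algHom_C, algebraMap_eq] at h'
  have h2 : bind₁ (gcx g) Q = 0 := by
    rcases mul_eq_zero.1 h' with h3 | h3
    · exact h3
    · rw [C_eq_zero] at h3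
      exact absurd h3 hl
  obtain ⟨M, hM⟩ := dvd_of_bind g l hl Q h2
  refine ⟨M, ?_⟩
  rw [hQ, hM]
  ring

end Div

/-! ### Homogeneous quotients -/

section Hom

variable {k L : Type} [Field k] [Field L] [Algebra k L]

/-- the derivation of the coefficients -/
noncomputable def cd (E : Derivation k L L) (N : MvPolynomial (Fin 3) L) :
    MvPolynomial (Fin 3) L := ∑ a ∈ N.support, monomial a (E (N.coeff a))

theorem cd_coeff (E : Derivation k L L) (N : MvPolynomial (Fin 3) L) (a : Fin 3 →₀ ℕ) :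
    (cd E N).coeff a = E (N.coeff a) := by
  classical
  unfold cd
  rw [coeff_sum]
  simp only [coeff_monomial]
  rw [Finset.sum_ite_eq' N.support a]
  split_ifs with h
  · rfl
  · rw [notMem_support_iff.1 h, map_zero]

theorem cd_mul (E : Derivation k L L) (P N : MvPolynomial (Fin 3) L) :
    cd E (P * N) = P * cd E N + cd E P * N := by
  classical
  ext a
  rw [cd_coeff, coeff_add, coeff_mul, coeff_mul, coeff_mul, map_sum, ← Finset.sum_add_distrib]
  refine Finset.sum_congr rfl fun x _ => ?_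
  rw [cd_coeff, cd_coeff, Derivation.leibniz, smul_eq_mul, smul_eq_mul]
  ring

theorem cd_pow (E : Derivation k L L) (P : MvPolynomial (Fin 3) L) (e : L)
    (h : cd E P = C e * P) (r : ℕ) : cd E (P ^ r) = C (r * e) * P ^ r := by
  induction r with
  | zero =>
    ext a
    classical
    rw [cd_coeff, pow_zero, coeff_one]
    split_ifs
    · rw [Derivation.map_one_eq_zero]
      simp
    · simp
  | succ r ih =>
    rw [pow_succ, cd_mul, ih, h]
    push_cast
    rw [add_mul, C_add, one_mul]
    ring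

theorem hm_quot (E : Derivation k L L) (t e : ℤ) (r : ℕ) (P N B : MvPolynomial (Fin 3) L)
    (hP0 : P ≠ 0) (hP : ∀ a, Hm k E e (P.coeff a)) (hB : ∀ a, Hm k E t (B.coeff a))
    (h : P ^ r * N = B) (a : Fin 3 →₀ ℕ) : Hm k E (t - r * e) (N.coeff a) := by
  have h1 : cd E P = C (e : L) * P := by
    ext a
    rw [cd_coeff, coeff_C_mul]
    exact hP a
  have h2 : cd E B = C (t : L) * B := by
    ext a
    rw [cd_coeff, coeff_C_mul]
    exact hB a
  have h3 := cd_mul E (P ^ r) N
  rw [h, h2, cd_pow E P _ h1, ← h] at h3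
  have h4 : P ^ r * (cd E N - C ((t : L) - r * e) * N) = 0 := by
    rw [C_sub]
    linear_combination -h3
  have h5 : cd E N = C ((t : L) - r * e) * N := by
    rcases mul_eq_zero.1 h4 with h6 | h6
    · exact absurd h6 (pow_ne_zero _ hP0)
    · exact sub_eq_zero.1 h6
  have h6 := congrArg (coeff a) h5
  rw [cd_coeff, coeff_C_mul] at h6
  unfold Hm
  rw [h6]
  push_cast
  rfl

end Hom

end Pool.Agent.H78.SF
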