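import Pool.Agent.H78.SF.CN3a

/-!
# MP_70ba79_ag, THEOREM S, CN3: the cubic form vanishes twice on the tangent lines of the curve
-/

set_option autoImplicit false

namespace Pool.Agent.H78.SF

open MvPolynomial SC Pool.Agent.H27.LV
open Pool.Agent.H84.SM (dp cr dt)
open Pool.Agent.H92.SF Pool.Agent.H3.SF

/-- substitution of multiples in a homogeneous polynomial -/
theorem bind_scale {R : Type} [CommRing R] {n : ℕ} {N : MvPolynomial (Fin 3) R}
    (hN : N.IsHomogeneous n) (c : R) (f : Fin 3 → MvPolynomial (Fin 3) R) :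
    bind₁ (fun i => C c * f i) N = C (c ^ n) * bind₁ f N := by
  change aeval (fun i => C c * f i) N = C (c ^ n) * aeval f N
  rw [aeval_def, aeval_def, eval₂_eq', eval₂_eq', Finset.mul_sum]
  refine Finset.sum_congr rfl fun d hd => ?_
  have h1 : ∑ i, d i = n := by
    rw [hN.degree_eq_sum_deg_support hd, ← Finsupp.sum_fintype d (fun _ e => e) (fun _ => rfl)]
    rfl
  simp only [mul_pow]
  rw [Finset.prod_mul_distrib, Finset.prod_pow_eq_pow_sum, h1, C_pow]
  ring

section IP

variable {k F : Type} [Field k] [Field F] [Algebra k F] (u : Fin 3 → F)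

/-- the inclusion of the ring of integral elements -/
noncomputable abbrev vl : Bb k u →+* F := ((Bb k u).val : Bb k u →ₐ[k] F)

theorem vl_inj : Function.Injective (vl (k := k) u) := Subtype.val_injective

/-- polynomials with integral coefficients -/
noncomputable def IP : Subring (MvPolynomial (Fin 3) F) :=
  (MvPolynomial.map (vl (k := k) u)).range

variable {u}

theorem mem_IP {N : MvPolynomial (Fin 3) F} :
    N ∈ IP (k := k) u ↔ ∀ a, Itg k u (N.coeff a) := by
  constructor
  · rintro ⟨N', rfl⟩ a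
    rw [coeff_map]
    exact (N'.coeff a).2
  · intro h
    refine ⟨∑ a ∈ N.support, monomial a (⟨N.coeff a, h a⟩ : Bb k u), ?_⟩
    rw [map_sum]
    simp only [map_monomial]
    exact support_sum_monomial_coeff N

theorem C_IP {a : F} (h : Itg k u a) : (C a : MvPolynomial (Fin 3) F) ∈ IP (k := k) u :=
  ⟨C ⟨a, h⟩, map_C _ _⟩

theorem X_IP (i : Fin 3) : (X i : MvPolynomial (Fin 3) F) ∈ IP (k := k) u :=
  ⟨X i, map_X _ _⟩

theorem pderiv_IP {N : MvPolynomial (Fin 3) F} (h : N ∈ IP (k := k) u) (i : Fin 3) :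
    pderiv i N ∈ IP (k := k) u := by
  obtain ⟨N', rfl⟩ := h
  exact ⟨pderiv i N', pderiv_map.symm⟩

/-- a multiple of `G` goes to zero -/
theorem map_zero_of {LL : Type} [Field LL] [Algebra k LL] (π : Bb k u →ₐ[k] LL) (G' : Bb k u)
    (hG : π G' = 0) (N' : MvPolynomial (Fin 3) (Bb k u)) (M : MvPolynomial (Fin 3) F)
    (hM : M ∈ IP (k := k) u) (h : map (vl u) N' = C (G' : F) * M) :
    map (π : Bb k u →+* LL) N' = 0 := by
  obtain ⟨M', rfl⟩ := hM
  have h1 : N' = C G' * M' := by
    apply map_injective _ (vl_inj (k := k) u)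
    rw [h, map_mul, map_C]
    rfl
  rw [h1, map_mul, map_C]
  have h2 : (π : Bb k u →+* LL) G' = 0 := hG
  rw [h2, C_0, zero_mul]

end IP

section Main

variable {k F : Type} [Field k] [Field F] [Algebra k F]

/-- abbreviation: the part with the second derivatives -/
noncomputable def hqg (dd : Fin 3 → Derivation k F F) (G : F)
    (f : Fin 3 → MvPolynomial (Fin 3) F) : MvPolynomial (Fin 3) F :=
  hq (fun i j => C (hes dd G i j)) (gx dd G) f

theorem bet_eq (u : Fin 3 → F) (dd : Fin 3 → Derivation k F F) (J : MvPolynomial (Fin 3) k)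
    (G : F) (b : MvPolynomial (Fin 3) F) (hb : b.IsHomogeneous 3) :
    C (aeval u J ^ 6) * bind₁ (gx dd G) b = bet u dd J G b +
      C (aeval u J ^ 6) * hqg dd G (gx dd G) * dp (fun i => C (u i)) X := by
  have h1 : aeval (fun i => C (aeval u J ^ 2) * gx dd G i) b =
      C (aeval u J ^ 6) * bind₁ (gx dd G) b := by
    have h2 := bind_scale hb (aeval u J ^ 2) (gx dd G)
    rw [← pow_mul] at h2
    exact h2
  unfold bet hqg
  rw [h1]
  ring

/-- integrality of the products of the second derivatives -/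
theorem hq_IP (u : Fin 3 → F) (dd : Fin 3 → Derivation k F F) (j G : F)
    (h1 : ∀ l, Itg k u (j * dd l G)) (h3 : ∀ i l, Itg k u (j ^ 3 * dd i (dd l G)))
    (f : Fin 3 → MvPolynomial (Fin 3) F) (hf : ∀ i, C j * f i ∈ IP (k := k) u) :
    C (j ^ 5) * hqg dd G f ∈ IP (k := k) u := by
  have hg : ∀ i, C j * gx dd G i ∈ IP (k := k) u := by
    intro i
    have h4 : C j * gx dd G i = C (j * dd (i + 1) G) * X (i + 2) -
        C (j * dd (i + 2) G) * X (i + 1) := by
      unfold gx cr grd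
      rw [C_mul, C_mul]
      ring
    rw [h4]
    exact (IP u).sub_mem ((IP u).mul_mem (C_IP (h1 _)) (X_IP _))
      ((IP u).mul_mem (C_IP (h1 _)) (X_IP _))
  unfold hqg hq
  rw [Finset.mul_sum]
  refine (IP u).sum_mem fun i _ => ?_
  rw [Finset.mul_sum]
  refine (IP u).sum_mem fun l _ => ?_
  have h5 : C (j ^ 5) * (C (hes dd G i l) * gx dd G i * f l) =
      C (j ^ 3 * dd i (dd l G)) * (C j * gx dd G i) * (C j * f l) := by
    unfold hes
    rw [C_mul, C_pow, C_pow]
    ring
  rw [h5]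
  exact (IP u).mul_mem ((IP u).mul_mem (C_IP (h3 i l)) (hg i)) (hf l)

theorem dp_IP (u : Fin 3 → F) (hu : ∀ i, Itg k u (u i)) :
    dp (fun i => C (u i)) X ∈ IP (k := k) u := by
  unfold dp
  exact (IP u).sum_mem fun i _ => (IP u).mul_mem (C_IP (hu i)) (X_IP i)

/-- (i) the value on `g × ρ` -/
theorem part_i (u : Fin 3 → F) (dd : Fin 3 → Derivation k F F) (J H : MvPolynomial (Fin 3) k)
    (G : F) (b : MvPolynomial (Fin 3) F) (hb : b.IsHomogeneous 3)
    (hu : ∀ i, Itg k u (u i)) (hj : Itg k u (aeval u J)) (hh : Itg k u (aeval u H))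
    (hG : Itg k u G) (hG0 : G ≠ 0)
    (h1 : ∀ l, Itg k u (aeval u J * dd l G)) (h3 : ∀ i l, Itg k u (aeval u J ^ 3 * dd i (dd l G)))
    (hA : ∀ a, Itg k u (aeval u H * ((bet u dd J G b).coeff a / G))) :
    ∃ M ∈ IP (k := k) u, bind₁ (fun i => C (aeval u J) * gx dd G i)
      (C (aeval u J ^ 6 * aeval u H * G) * b) = C G * M := by
  set j := aeval u J with hjd
  set h := aeval u H with hhd
  have hβ : C (h / G) * bet u dd J G b ∈ IP (k := k) u := by
    rw [mem_IP]
    intro a
    rw [coeff_C_mul]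
    have h4 : h / G * (bet u dd J G b).coeff a = h * ((bet u dd J G b).coeff a / G) := by
      rw [div_mul_eq_mul_div, mul_div_assoc]
    rw [h4]
    exact hA a
  have hC : (C h : MvPolynomial (Fin 3) F) = C G * C (h / G) := by
    rw [← C_mul, mul_div_cancel₀ _ hG0]
  have hgi : ∀ i, C j * gx dd G i ∈ IP (k := k) u := by
    intro i
    have h4 : C j * gx dd G i = C (j * dd (i + 1) G) * X (i + 2) -
        C (j * dd (i + 2) G) * X (i + 1) := by
      unfold gx cr grd
      rw [C_mul, C_mul]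
      ring
    rw [h4]
    exact (IP u).sub_mem ((IP u).mul_mem (C_IP (h1 _)) (X_IP _))
      ((IP u).mul_mem (C_IP (h1 _)) (X_IP _))
  have hj3 : (C (j ^ 3) : MvPolynomial (Fin 3) F) ∈ IP (k := k) u := by
    rw [C_pow]
    exact (IP u).pow_mem (C_IP hj) 3
  have hj4 : (C (j ^ 4) : MvPolynomial (Fin 3) F) ∈ IP (k := k) u := by
    rw [C_pow]
    exact (IP u).pow_mem (C_IP hj) 4
  refine ⟨C (j ^ 3) * (C G * (C (h / G) * bet u dd J G b)) +
    C (j ^ 4) * C h * (C (j ^ 5) * hqg dd G (gx dd G)) * dp (fun i => C (u i)) X, ?_, ?_⟩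
  · exact (IP u).add_mem ((IP u).mul_mem hj3 ((IP u).mul_mem (C_IP hG) hβ))
      ((IP u).mul_mem ((IP u).mul_mem ((IP u).mul_mem hj4 (C_IP hh)) (hq_IP u dd j G h1 h3 _ hgi))
        (dp_IP u hu))
  · rw [map_mul, algHom_C, algebraMap_eq, bind_scale hb]
    have h5 := bet_eq u dd J G b hb
    rw [← hjd] at h5
    have h6 : (C (j ^ 6 * h * G) : MvPolynomial (Fin 3) F) = C (j ^ 6) * C h * C G := by
      rw [C_mul, C_mul]
    rw [h6]
    calc C (j ^ 6) * C h * C G * (C (j ^ 3) * bind₁ (gx dd G) b)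
        = C h * C G * C (j ^ 3) * (C (j ^ 6) * bind₁ (gx dd G) b) := by ring
      _ = C h * C G * C (j ^ 3) * (bet u dd J G b +
      C (j ^ 6) * hqg dd G (gx dd G) * dp (fun i => C (u i)) X) := by rw [h5]
      _ = C G * (C (j ^ 3) * (C h * bet u dd J G b) +
        C (j ^ 4) * C h * (C (j ^ 5) * hqg dd G (gx dd G)) * dp (fun i => C (u i)) X) := by
        simp only [C_pow]
        ring
      _ = _ := by
        rw [hC, mul_assoc (C G) (C (h / G)) (bet u dd J G b)]

/-- the unit vector -/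
def ev1 (l : Fin 3) : Fin 3 → F := fun i => if i = l then 1 else 0

/-- (ii) the value of a derivative on `g × ρ` -/
theorem part_ii (u : Fin 3 → F) (dd : Fin 3 → Derivation k F F) (J H : MvPolynomial (Fin 3) k)
    (m : ℕ) (G : F) (b : MvPolynomial (Fin 3) F) (hb : b.IsHomogeneous 3)
    (hu : ∀ i, Itg k u (u i)) (hj : Itg k u (aeval u J)) (hh : Itg k u (aeval u H))
    (hG0 : G ≠ 0)
    (h1 : ∀ l, Itg k u (aeval u J * dd l G)) (h3 : ∀ i l, Itg k u (aeval u J ^ 3 * dd i (dd l G)))
    (hA : ∀ a, Itg k u (aeval u H * ((bet u dd J G b).coeff a / G)))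
    (hCN : ∀ e : Fin 3 → F, ∑ i, dd i G * e i = 1 →
      C (m * G * aeval u J ^ 6) * aeval (gx dd G) (∑ i, C (e i) * pderiv i b) =
      - ∑ i, C (cr u e i) * pderiv i (bet u dd J G b) +
        C (2 * m * G * aeval u J ^ 6) * hq (fun i j => C (hes dd G i j)) (gx dd G)
          (fun i => C (e i)) * dp (fun i => C (u i)) X)
    (l : Fin 3) (hl : dd l G ≠ 0) :
    ∃ M ∈ IP (k := k) u, C (m : F) * bind₁ (fun i => C (aeval u J) * gx dd G i)
      (pderiv l (C (aeval u J ^ 6 * aeval u H * G) * b)) = C G * M := by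
  set j := aeval u J with hjd
  set h := aeval u H with hhd
  have hβ : C (h / G) * bet u dd J G b ∈ IP (k := k) u := by
    rw [mem_IP]
    intro a
    rw [coeff_C_mul]
    have h4 : h / G * (bet u dd J G b).coeff a = h * ((bet u dd J G b).coeff a / G) := by
      rw [div_mul_eq_mul_div, mul_div_assoc]
    rw [h4]
    exact hA a
  have hC : h = G * (h / G) := by
    rw [mul_div_cancel₀ _ hG0]
  have h01 : ∀ i, Itg k u (ev1 l i : F) := by
    intro i
    unfold ev1
    split_ifs
    · exact (Bb k u).one_mem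
    · exact (Bb k u).zero_mem
  have hcr : ∀ i, Itg k u (cr u (ev1 l) i) := by
    intro i
    unfold cr
    exact (Bb k u).sub_mem ((Bb k u).mul_mem (hu _) (h01 _)) ((Bb k u).mul_mem (hu _) (h01 _))
  have hj2 : (C (j ^ 2) : MvPolynomial (Fin 3) F) ∈ IP (k := k) u := by
    rw [C_pow]
    exact (IP u).pow_mem (C_IP hj) 2
  have hj3 : (C (j ^ 3) : MvPolynomial (Fin 3) F) ∈ IP (k := k) u := by
    rw [C_pow]
    exact (IP u).pow_mem (C_IP hj) 3
  have hm : (C (2 * (m : F)) : MvPolynomial (Fin 3) F) ∈ IP (k := k) u := by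
    have h4 : (C (2 * (m : F)) : MvPolynomial (Fin 3) F) = ((2 * m : ℕ) : MvPolynomial (Fin 3) F) := by
      push_cast
      rw [C_mul, map_ofNat, map_natCast]
    rw [h4]
    exact natCast_mem (IP u) _
  -- the identity for the unit vector
  have hkey : C (m * G * j ^ 6) * bind₁ (gx dd G) (pderiv l b) =
      - ∑ i, C (cr u (ev1 l) i) * pderiv i (bet u dd J G b) +
        C (2 * m * G * j ^ 6) * hqg dd G (fun i => C (ev1 l i)) * dp (fun i => C (u i)) X := by
    have h4 := hCN (fun i => (dd l G)⁻¹ * ev1 l i) (by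
      unfold ev1
      simp [hl])
    have e1 : ∑ i, C ((dd l G)⁻¹ * ev1 l i) * pderiv i b = C (dd l G)⁻¹ * pderiv l b := by
      rw [Finset.sum_eq_single l]
      · unfold ev1
        rw [if_pos rfl, mul_one]
      · intro i _ hi
        unfold ev1
        rw [if_neg hi, mul_zero, C_0, zero_mul]
      · intro h
        exact absurd (Finset.mem_univ l) h
    have e2 : ∀ i, cr u (fun i => (dd l G)⁻¹ * ev1 l i) i = (dd l G)⁻¹ * cr u (ev1 l) i := by
      intro i
      unfold cr
      ring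
    have e3 : hq (fun i j => C (hes dd G i j)) (gx dd G) (fun i => C ((dd l G)⁻¹ * ev1 l i)) =
        C (dd l G)⁻¹ * hqg dd G (fun i => C (ev1 l i)) := by
      unfold hqg hq
      rw [Finset.mul_sum]
      refine Finset.sum_congr rfl fun i _ => ?_
      rw [Finset.mul_sum]
      refine Finset.sum_congr rfl fun i' _ => ?_
      simp only [C_mul]
      ring
    rw [e1, e3] at h4
    simp only [e2] at h4
    have e4 : ∑ i, C ((dd l G)⁻¹ * cr u (ev1 l) i) * pderiv i (bet u dd J G b) =
        C (dd l G)⁻¹ * ∑ i, C (cr u (ev1 l) i) * pderiv i (bet u dd J G b) := by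
      rw [Finset.mul_sum]
      refine Finset.sum_congr rfl fun i _ => ?_
      rw [C_mul, mul_assoc]
    rw [e4] at h4
    have e5 : (C (dd l G) : MvPolynomial (Fin 3) F) * C (dd l G)⁻¹ = 1 := by
      rw [← C_mul, mul_inv_cancel₀ hl, C_1]
    have e6 : aeval (gx dd G) (C (dd l G)⁻¹ * pderiv l b) =
        C (dd l G)⁻¹ * bind₁ (gx dd G) (pderiv l b) := by
      rw [map_mul, algHom_C]
      rfl
    rw [e6] at h4
    linear_combination C (dd l G) * h4 + (-C (m * G * j ^ 6) * bind₁ (gx dd G) (pderiv l b) -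
      ∑ i, C (cr u (ev1 l) i) * pderiv i (bet u dd J G b) +
      C (2 * m * G * j ^ 6) * hqg dd G (fun i => C (ev1 l i)) * dp (fun i => C (u i)) X) * e5
  refine ⟨- (C (j ^ 2) * ∑ i, C (cr u (ev1 l) i) * pderiv i (C (h / G) * bet u dd J G b)) +
    C (2 * (m : F)) * C h * C (j ^ 3) * (C (j ^ 5) * hqg dd G (fun i => C (ev1 l i))) *
      dp (fun i => C (u i)) X, ?_, ?_⟩
  · refine (IP u).add_mem ((IP u).neg_mem ((IP u).mul_mem hj2 ((IP u).sum_mem fun i _ =>
      (IP u).mul_mem (C_IP (hcr i)) (pderiv_IP hβ i)))) ((IP u).mul_mem ((IP u).mul_mem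
        ((IP u).mul_mem ((IP u).mul_mem hm (C_IP hh)) hj3) (hq_IP u dd j G h1 h3 _ fun i => ?_))
        (dp_IP u hu))
    rw [← C_mul]
    exact C_IP ((Bb k u).mul_mem hj (h01 i))
  · have h5 : ∀ i, pderiv i (C (h / G) * bet u dd J G b) =
        C (h / G) * pderiv i (bet u dd J G b) := fun i => pderiv_C_mul
    simp only [h5]
    rw [pderiv_C_mul, map_mul, algHom_C, algebraMap_eq, bind_scale hb.pderiv]
    have e7 : ∑ i, C (cr u (ev1 l) i) * (C (h / G) * pderiv i (bet u dd J G b)) =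
        C (h / G) * ∑ i, C (cr u (ev1 l) i) * pderiv i (bet u dd J G b) := by
      rw [Finset.mul_sum]
      refine Finset.sum_congr rfl fun i _ => ?_
      ring
    rw [e7]
    have e8 : (C h : MvPolynomial (Fin 3) F) = C G * C (h / G) := by
      rw [← C_mul, ← hC]
    have e9 : ∀ X : MvPolynomial (Fin 3) F, C (m : F) * (C (j ^ 6 * h * G) *
        (C (j ^ (3 - 1)) * X)) = C h * C (j ^ 2) * (C (m * G * j ^ 6) * X) := by
      intro X
      simp only [C_mul, C_pow]
      ring
    rw [e9, hkey]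
    have e10 : (C (2 * m * G * j ^ 6) : MvPolynomial (Fin 3) F) =
        C (2 * (m : F)) * C G * C (j ^ 6) := by
      rw [← C_mul, ← C_mul]
    rw [e10]
    simp only [C_pow]
    linear_combination (-(C j ^ 2 * ∑ i, C (cr u (ev1 l) i) * pderiv i (bet u dd J G b))) * e8

end Main

end Pool.Agent.H78.SF
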