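import Pool.Agent.H84.SF.Loc

/-!
# MP_70ba79_ag, FRS: change of the frame
-/

set_option autoImplicit false

namespace Pool.Agent.H78.SF

open MvPolynomial SC
open Pool.Agent.H84.SF

theorem pf_FRS : T_FRS := by
  intro k O _ _ _ ε X G dX dG hF
  refine ⟨⟨hF.unit, ?_, ?_, ?_, ?_, ?_⟩, ?_⟩
  · intro h
    rw [hF.max]
    constructor
    · rintro ⟨a, b, h1⟩
      exact ⟨a, b - a, by rw [h1]; ring⟩
    · rintro ⟨a, b, h1⟩
      exact ⟨a, a + b, by rw [h1]; ring⟩
  · rw [map_add, hF.xx, hF.xg, add_zero]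
  · exact hF.xg
  · rw [Derivation.sub_apply, map_add, map_add, hF.gx, hF.gg, hF.xx, hF.xg]
    ring
  · rw [Derivation.sub_apply, hF.gg, hF.xg, sub_zero]
  · intro K _ _ A b x D h
    unfold EqK at h ⊢
    rw [Fin.sum_univ_four] at h ⊢
    simp only [bsh, Matrix.cons_val, map_add, map_sub, map_mul, map_ofNat, Fin.val_zero,
      Fin.val_one, Fin.val_two] at h ⊢
    have e3 : ((3 : Fin 4) : ℕ) = 3 := rfl
    rw [e3] at h ⊢
    norm_num at h ⊢
    linear_combination h

end Pool.Agent.H78.SF
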